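import Pool.Agent.Q229.CPM.Elim

namespace Q229.CPM

/-- all sums of at most `k` elements of `l` -/
def sums (l : List ℕ) : ℕ → List ℕ
  | 0 => [0]
  | k + 1 => sums l k ++ (sums l k).flatMap (fun s => l.map (fun n => s + n))

theorem sums_mono (l : List ℕ) {j k : ℕ} (h : j ≤ k) {x : ℕ} (hx : x ∈ sums l j) :
    x ∈ sums l k := by
  induction h with
  | refl => exact hx
  | step _ ih => simp only [sums, List.mem_append]; exact Or.inl ih

theorem sums_sound (l : List ℕ) (k : ℕ) : ∀ x ∈ sums l k, x ∈ Gen l := by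
  induction k with
  | zero => intro x hx; simp only [sums, List.mem_singleton] at hx; subst hx; exact zero_mem _
  | succ k ih =>
    intro x hx
    simp only [sums, List.mem_append, List.mem_flatMap, List.mem_map] at hx
    rcases hx with hx | ⟨s, hs, n, hn, rfl⟩
    · exact ih x hx
    · exact add_mem (ih s hs) (AddSubmonoid.subset_closure hn)

theorem sums_complete {l : List ℕ} (hl : ∀ n ∈ l, 0 < n) {x : ℕ} (hx : x ∈ Gen l) :
    x ∈ sums l x := by
  induction hx using AddSubmonoid.closure_induction_right with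
  | zero => simp [sums]
  | add_right x hx n hn ih =>
    have h1 : x + n ∈ sums l (x + 1) := by
      simp only [sums, List.mem_append, List.mem_flatMap, List.mem_map]
      exact Or.inr ⟨x, ih, n, hn, rfl⟩
    exact sums_mono l (by have := hl n hn; omega) h1

theorem mem_gen_iff {l : List ℕ} (hl : ∀ n ∈ l, 0 < n) (x : ℕ) : x ∈ Gen l ↔ x ∈ sums l x :=
  ⟨sums_complete hl, sums_sound l x x⟩

/-- Small representatives of residue classes. -/
theorem residue {m : ℕ} (hm : 0 < m) : ∀ (l : List ℕ) (x : ℤ),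
    ((l.foldr Nat.gcd m : ℕ) : ℤ) ∣ x → ∃ s ∈ Gen l, s ≤ m * l.sum ∧ (m : ℤ) ∣ x - s := by
  intro l
  induction l with
  | nil =>
    intro x hx
    exact ⟨0, zero_mem _, by simp, by simpa using hx⟩
  | cons n l ih =>
    intro x hx
    simp only [List.foldr_cons] at hx
    set e := l.foldr Nat.gcd m with he
    have hem : e ∣ m := by
      clear_value e
      subst he
      clear hx ih
      induction l with
      | nil => simp
      | cons a l ih => simp only [List.foldr_cons]; exact (Nat.gcd_dvd_right _ _).trans ih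
    have he0 : 0 < e := Nat.pos_of_dvd_of_pos hem hm
    -- choose c
    obtain ⟨c, hc, hce⟩ : ∃ c : ℕ, c < m ∧ (e : ℤ) ∣ x - c * n := by
      obtain ⟨y, hy⟩ := hx
      have hg := Nat.gcd_eq_gcd_ab n e
      set u := Nat.gcdA n e
      set v := Nat.gcdB n e
      refine ⟨((y * u) % (e : ℤ)).toNat, ?_, ?_⟩
      · have h1 : (y * u) % (e : ℤ) < e := Int.emod_lt_of_pos _ (by exact_mod_cast he0)
        have h2 : 0 ≤ (y * u) % (e : ℤ) := Int.emod_nonneg _ (by positivity)
        have h3 : e ≤ m := Nat.le_of_dvd hm hem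
        omega
      · have h2 : 0 ≤ (y * u) % (e : ℤ) := Int.emod_nonneg _ (by positivity)
        rw [Int.toNat_of_nonneg h2]
        have h4 : (y * u) % (e : ℤ) = y * u - e * ((y * u) / e) := by
          have := Int.emod_add_mul_ediv (y * u) e
          linarith
        rw [h4, hy, hg]
        refine ⟨y * v + ((y * u) / e) * n, ?_⟩
        ring
    obtain ⟨s, hs, hsle, hsd⟩ := ih (x - c * n) hce
    refine ⟨c * n + s, ?_, ?_, ?_⟩
    · have h1 : c * n ∈ Gen (n :: l) := by
        rw [← smul_eq_mul]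
        exact AddSubmonoid.nsmul_mem _ (AddSubmonoid.subset_closure (by simp)) c
      have h2 : s ∈ Gen (n :: l) :=
        AddSubmonoid.closure_mono (fun y hy => List.mem_cons_of_mem _ hy) hs
      exact add_mem h1 h2
    · rw [List.sum_cons, mul_add]
      exact Nat.add_le_add (Nat.mul_le_mul_right _ hc.le) hsle
    · push_cast
      have : x - (c * n + s) = x - c * n - s := by ring
      rw [this]; exact hsd

theorem gap_lt {l : List ℕ} (hl : ∀ n ∈ l, 0 < n) (hg : l.foldr Nat.gcd 0 = 1) (x : ℕ)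
    (hx : l.sum * l.sum ≤ x) : x ∈ Gen l := by
  match l, hl, hg, hx with
  | [], _, hg, _ => simp at hg
  | m :: l, hl, hg, hx =>
    have hm : 0 < m := hl m (by simp)
    have hg' : (m :: l).foldr Nat.gcd m = 1 := by
      have key : ∀ (l : List ℕ) (k : ℕ), l.foldr Nat.gcd k = Nat.gcd (l.foldr Nat.gcd 0) k := by
        intro l k
        induction l with
        | nil => simp
        | cons a l ih => simp only [List.foldr_cons]; rw [ih, Nat.gcd_assoc]
      rw [key, hg]; simp
    obtain ⟨s, hs, hsle, hsd⟩ := residue hm (m :: l) (x : ℤ) (by rw [hg']; simp)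
    have hms : m ≤ (m :: l).sum := by simp
    have h1 : s ≤ x := hsle.trans ((Nat.mul_le_mul_right _ hms).trans hx)
    have h2 : m ∣ x - s := by
      have : ((x - s : ℕ) : ℤ) = (x : ℤ) - s := by push_cast [h1]; ring
      rw [← this] at hsd
      exact_mod_cast hsd
    obtain ⟨k, hk⟩ := h2
    have h3 : x = s + k • m := by rw [smul_eq_mul, mul_comm]; omega
    rw [h3]
    exact add_mem hs (AddSubmonoid.nsmul_mem _ (AddSubmonoid.subset_closure (by simp)) k)

/-- Final criterion. -/
theorem main {l : List ℕ} (hl : ∀ n ∈ l, 0 < n) (hg : l.foldr Nat.gcd 0 = 1) :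
    IsCPM (Gen l) ↔ ∃ q < l.sum * l.sum + 1, 0 < q ∧ ∃ p < q + 1,
      Crit l (fun g => g < l.sum * l.sum ∧ g ∉ sums l g) p q := by
  set N := l.sum * l.sum with hN
  have hsum : 0 < l.sum := by
    rcases Nat.eq_zero_or_pos l.sum with h0 | h0
    · exfalso
      match l, hl, hg, h0 with
      | [], _, hg, _ => simp at hg
      | m :: l, hl, _, h0 => have := hl m (by simp); simp at h0; omega
    · exact h0
  have hNpos : 0 < N := Nat.mul_pos hsum hsum
  have hlN : ∀ n ∈ l, n ≤ N := by
    intro n hn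
    have h1 : n ≤ l.sum := List.le_sum_of_mem hn
    exact h1.trans (Nat.le_mul_of_pos_right _ hsum)
  have hGiff : ∀ g, (g < N ∧ g ∉ sums l g) ↔ g ∉ Gen l := by
    intro g
    rw [mem_gen_iff hl]
    refine ⟨fun h => h.2, fun h => ⟨?_, h⟩⟩
    by_contra h2
    exact h ((mem_gen_iff hl g).1 (gap_lt hl hg g (by omega)))
  rw [isCPM_iff]
  constructor
  · rintro ⟨a, b, c, d, hb, hc, h1, h2⟩
    have h3 := crit_of_P hl (G := fun g => g < N ∧ g ∉ sums l g) hb
      (fun n hn => h1 n hn (hl n hn)) (fun g hg => h2 g ((hGiff g).1 hg))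
    have hb0 : 0 < b := Nat.pos_of_ne_zero hb
    obtain ⟨q, p, hq0, hqN, hpq, hcr⟩ := crit_small hNpos hlN (fun g hg => hg.1.le) hb0
      (Nat.mod_lt a hb0).le h3
    exact ⟨q, by omega, hq0, p, by omega, hcr⟩
  · rintro ⟨q, _, hq0, p, _, hcr⟩
    obtain ⟨a, b, c, d, hb, hc, h1, h2⟩ := P_of_crit hl (N := N) (fun g hg => hg.1)
      (fun h => h.2 (by simp [sums])) (fun n hn h => (hGiff n).1 h
        (AddSubmonoid.subset_closure hn)) hq0 hcr
    exact ⟨a, b, c, d, hb, hc, fun n hn _ => h1 n hn, fun g hg => h2 g ((hGiff g).2 hg)⟩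

end Q229.CPM
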