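import Mathlib

/-! # Contracted proportionally modular numerical semigroups -/

namespace Q229.CPM

/-- The set `P(a,b,c,d)` of all integers `x` with `a x mod b ≤ c x - d`. -/
def P (a b c d : ℕ) : Set ℤ := {x | ((a : ℤ) * x) % (b : ℤ) ≤ (c : ℤ) * x - (d : ℤ)}

/-- `S` equals `P(a,b,c,d) ∪ {0}` for some nonnegative integers `a, b, c, d` with `b, c ≠ 0`. -/
def IsCPM (S : Set ℕ) : Prop :=
  ∃ a b c d : ℕ, b ≠ 0 ∧ c ≠ 0 ∧ (fun n : ℕ => (n : ℤ)) '' S = P a b c d ∪ {0}

/-- The numerical semigroup generated by a list. -/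
abbrev Gen (l : List ℕ) : AddSubmonoid ℕ := AddSubmonoid.closure {x | x ∈ l}

theorem P_add {a b c d : ℕ} (hb : b ≠ 0) {x y : ℤ} (hx : x ∈ P a b c d) (hy : y ∈ P a b c d) :
    x + y ∈ P a b c d := by
  simp only [P, Set.mem_ofPred_eq] at *
  have hb' : (0 : ℤ) < b := by positivity
  have h1 : ((a : ℤ) * (x + y)) % b ≤ ((a : ℤ) * x) % b + ((a : ℤ) * y) % b := by
    rw [mul_add, Int.add_emod]
    have h0 : 0 ≤ ((a : ℤ) * x) % b + ((a : ℤ) * y) % b :=
      add_nonneg (Int.emod_nonneg _ hb'.ne') (Int.emod_nonneg _ hb'.ne')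
    have := Int.emod_add_mul_ediv (((a : ℤ) * x) % b + ((a : ℤ) * y) % b) b
    have h2 : 0 ≤ (((a : ℤ) * x) % b + ((a : ℤ) * y) % b) / b := Int.ediv_nonneg h0 hb'.le
    nlinarith
  have : (0 : ℤ) ≤ d := by positivity
  nlinarith

theorem P_nonneg {a b c d : ℕ} (hb : b ≠ 0) (hc : c ≠ 0) {x : ℤ} (hx : x ∈ P a b c d) :
    0 ≤ x := by
  simp only [P, Set.mem_ofPred_eq] at *
  have hb' : (0 : ℤ) < b := by positivity
  have h0 := Int.emod_nonneg ((a : ℤ) * x) hb'.ne'
  by_contra h
  push Not at h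
  have hc' : (0 : ℤ) < c := by positivity
  have : (0 : ℤ) ≤ d := by positivity
  nlinarith

/-- Only the generators and the gaps matter. -/
theorem isCPM_iff (l : List ℕ) :
    IsCPM (Gen l) ↔ ∃ a b c d : ℕ, b ≠ 0 ∧ c ≠ 0 ∧ (∀ n ∈ l, 0 < n → (n : ℤ) ∈ P a b c d) ∧
      ∀ g : ℕ, g ∉ Gen l → (g : ℤ) ∉ P a b c d := by
  constructor
  · rintro ⟨a, b, c, d, hb, hc, h⟩
    refine ⟨a, b, c, d, hb, hc, ?_, ?_⟩
    · intro n hn hn0
      have h1 : (n : ℤ) ∈ (fun n : ℕ => (n : ℤ)) '' (Gen l : Set ℕ) :=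
        ⟨n, AddSubmonoid.subset_closure hn, rfl⟩
      rw [h] at h1
      rcases h1 with h1 | h1
      · exact h1
      · simp at h1; omega
    · intro g hg hg'
      have h1 : (g : ℤ) ∈ (fun n : ℕ => (n : ℤ)) '' (Gen l : Set ℕ) := by
        rw [h]; exact Or.inl hg'
      obtain ⟨m, hm, hm'⟩ := h1
      have : m = g := Int.ofNat.inj hm'
      exact hg (this ▸ hm)
  · rintro ⟨a, b, c, d, hb, hc, h1, h2⟩
    refine ⟨a, b, c, d, hb, hc, ?_⟩
    ext x
    constructor
    · rintro ⟨m, hm, rfl⟩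
      have : m ∈ Gen l := hm
      clear hm
      induction this using AddSubmonoid.closure_induction with
      | mem n hn =>
        rcases Nat.eq_zero_or_pos n with h0 | h0
        · right; simp [h0]
        · exact Or.inl (h1 n hn h0)
      | zero => right; simp
      | add x y _ _ hx hy =>
        rcases hx with hx | hx
        · rcases hy with hy | hy
          · left; push_cast; exact P_add hb hx hy
          · left
            have : y = 0 := by simpa using hy
            subst this; simpa using hx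
        · have : x = 0 := by simpa using hx
          subst this
          simpa using hy
    · rintro (hx | hx)
      · have h0 := P_nonneg hb hc hx
        obtain ⟨m, rfl⟩ := Int.eq_ofNat_of_zero_le h0
        refine ⟨m, ?_, rfl⟩
        by_contra hm
        exact h2 m hm hx
      · have : x = 0 := hx
        exact ⟨0, (Gen l).zero_mem, by simp [this]⟩

/-- The eliminated criterion for the quotient `p / q`. -/
def Crit (l : List ℕ) (G : ℕ → Prop) (p q : ℕ) : Prop :=
  (∀ n ∈ l, ∀ g, G g → n < g → n * (p * g / q) < g * (p * n / q)) ∧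
  (∀ n ∈ l, ∀ g, G g → g < n → ∀ m ∈ l, ∀ k, G k → m < k →
    n * (p * g / q) * (k - m) + m * (p * k / q) * (n - g) <
      k * (p * m / q) * (n - g) + g * (p * n / q) * (k - m))

end Q229.CPM
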