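import Pool.Agent.Q229.CPM.Defs

namespace Q229.CPM

theorem crit_of_P {l : List ℕ} (hl : ∀ n ∈ l, 0 < n) {G : ℕ → Prop} {a b c d : ℕ} (hb : b ≠ 0)
    (h1 : ∀ n ∈ l, (n : ℤ) ∈ P a b c d) (h2 : ∀ g, G g → (g : ℤ) ∉ P a b c d) :
    Crit l G (a % b) b := by
  have hb' : 0 < b := Nat.pos_of_ne_zero hb
  have hbz : (0 : ℤ) < b := by exact_mod_cast hb'
  have key : ∀ x : ℕ, ((a : ℤ) * x) % b = ((a % b : ℕ) : ℤ) * x - b * (((a % b) * x / b : ℕ) : ℤ) := by
    intro x
    have e1 : ((a : ℤ) * x) % b = (((a % b : ℕ) : ℤ) * x) % b := by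
      push_cast
      rw [Int.mul_emod, Int.mul_emod ((a : ℤ) % b) x, Int.emod_emod_of_dvd _ (dvd_refl _)]
    rw [e1]
    have := Int.emod_add_mul_ediv (((a % b : ℕ) : ℤ) * x) b
    push_cast at this ⊢
    linarith
  have k1 : ∀ n ∈ l, ((a % b : ℕ) : ℤ) * n - b * (((a % b) * n / b : ℕ) : ℤ) ≤ c * n - d := by
    intro n hn
    have := h1 n hn
    simp only [P, Set.mem_ofPred_eq] at this
    rwa [key n] at this
  have k2 : ∀ g, G g → (c : ℤ) * g - d < ((a % b : ℕ) : ℤ) * g - b * (((a % b) * g / b : ℕ) : ℤ) := by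
    intro g hg
    have := h2 g hg
    simp only [P, Set.mem_ofPred_eq, not_le] at this
    rwa [key g] at this
  -- main inequality
  have main : ∀ n ∈ l, ∀ g, G g →
      ((g : ℤ) - n) * d < b * ((g : ℤ) * (((a % b) * n / b : ℕ) : ℤ) - n * (((a % b) * g / b : ℕ) : ℤ)) := by
    intro n hn g hg
    have i1 := k1 n hn
    have i2 := k2 g hg
    have hn0 : (0 : ℤ) < n := by exact_mod_cast hl n hn
    have hg0 : (0 : ℤ) ≤ g := by positivity
    nlinarith [mul_le_mul_of_nonneg_left i1 hg0, mul_lt_mul_of_pos_left i2 hn0]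
  generalize a % b = p at *
  have hd : (0 : ℤ) ≤ d := by positivity
  refine ⟨?_, ?_⟩
  · intro n hn g hg hng
    have := main n hn g hg
    have h3 : (0 : ℤ) ≤ ((g : ℤ) - n) * d := by
      have : (n : ℤ) < g := by exact_mod_cast hng
      nlinarith
    have h4 : 0 < (b : ℤ) * ((g : ℤ) * ((p * n / b : ℕ) : ℤ) - n * ((p * g / b : ℕ) : ℤ)) := by
      linarith
    have h5 := pos_of_mul_pos_right h4 hbz.le
    zify
    push_cast at h5
    linarith
  · intro n hn g hg hgn m hm k hk hmk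
    have m1 := main n hn g hg
    have m2 := main m hm k hk
    have e1 : (0 : ℤ) < (n : ℤ) - g := by
      have : (g : ℤ) < n := by exact_mod_cast hgn
      linarith
    have e2 : (0 : ℤ) < (k : ℤ) - m := by
      have : (m : ℤ) < k := by exact_mod_cast hmk
      linarith
    have m1' := mul_lt_mul_of_pos_right m1 e2
    have m2' := mul_lt_mul_of_pos_right m2 e1
    have h6 : (0 : ℤ) < b * (((k : ℤ) * ((p * m / b : ℕ) : ℤ) - m * ((p * k / b : ℕ) : ℤ)) * ((n : ℤ) - g)
        + ((g : ℤ) * ((p * n / b : ℕ) : ℤ) - n * ((p * g / b : ℕ) : ℤ)) * ((k : ℤ) - m)) := by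
      nlinarith
    have h7 := pos_of_mul_pos_right h6 hbz.le
    zify [hgn.le, hmk.le]
    push_cast at h7
    nlinarith


/-- From the criterion back to parameters. -/
theorem P_of_crit {l : List ℕ} (hl : ∀ n ∈ l, 0 < n) {G : ℕ → Prop} {N : ℕ}
    (hG : ∀ g, G g → g < N) (hG0 : ¬ G 0) (hdis : ∀ n ∈ l, ¬ G n) {p q : ℕ} (hq : 0 < q)
    (h : Crit l G p q) :
    ∃ a b c d : ℕ, b ≠ 0 ∧ c ≠ 0 ∧ (∀ n ∈ l, (n : ℤ) ∈ P a b c d) ∧
      ∀ g, G g → (g : ℤ) ∉ P a b c d := by
  classical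
  obtain ⟨h1, h2⟩ := h
  -- remainders
  set R : ℕ → ℚ := fun x => ((p * x % q : ℕ) : ℚ) with hR
  have hqq : (0 : ℚ) < q := by exact_mod_cast hq
  have hRQ : ∀ x, R x = (p : ℚ) * x - q * ((p * x / q : ℕ) : ℚ) := by
    intro x
    have := Nat.mod_add_div (p * x) q
    have h' : ((p * x % q : ℕ) : ℚ) + q * ((p * x / q : ℕ) : ℚ) = (p : ℚ) * x := by
      exact_mod_cast this
    simp only [hR]; linarith
  set W : ℕ → ℕ → ℚ := fun n g => (g : ℚ) * R n - n * R g with hW
  have hWQ : ∀ n g, W n g = q * ((n : ℚ) * ((p * g / q : ℕ) : ℚ) - g * ((p * n / q : ℕ) : ℚ)) := by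
    intro n g
    simp only [hW, hRQ]; ring
  -- lower and upper bounds for delta
  set GS : Finset ℕ := (Finset.range N).filter G with hGS
  have hmemGS : ∀ g, g ∈ GS ↔ G g := by
    intro g
    simp only [hGS, Finset.mem_filter, Finset.mem_range]
    exact ⟨fun h => h.2, fun h => ⟨hG g h, h⟩⟩
  set LS : Finset ℕ := l.toFinset with hLS
  set lo : Finset ℚ := insert 0 (((LS ×ˢ GS).filter (fun x => x.2 < x.1)).image
    (fun x => W x.1 x.2 / ((x.1 : ℚ) - x.2))) with hlo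
  set hi : Finset ℚ := (((LS ×ˢ GS).filter (fun x => x.1 < x.2)).image
    (fun x => - W x.1 x.2 / ((x.2 : ℚ) - x.1))) with hhi
  obtain ⟨δ, hδ1, hδ2⟩ := Order.exists_between_finsets lo hi (by
    intro x hx y hy
    simp only [hlo, hhi, Finset.mem_insert, Finset.mem_image, Finset.mem_filter,
      Finset.mem_product, Prod.exists, hmemGS, hLS, List.mem_toFinset] at hx hy
    obtain ⟨m, k, ⟨⟨hm, hk⟩, hmk⟩, rfl⟩ := hy
    have hkm : (0 : ℚ) < (k : ℚ) - m := by
      have : (m : ℚ) < k := by exact_mod_cast hmk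
      linarith
    rcases hx with rfl | ⟨n, g, ⟨⟨hn, hg⟩, hgn⟩, rfl⟩
    · apply div_pos _ hkm
      rw [hWQ]
      have := h1 m hm k hk hmk
      have t : ((m : ℚ) * ((p * k / q : ℕ) : ℚ)) < k * ((p * m / q : ℕ) : ℚ) := by
        exact_mod_cast this
      nlinarith
    · have hng : (0 : ℚ) < (n : ℚ) - g := by
        have : (g : ℚ) < n := by exact_mod_cast hgn
        linarith
      rw [div_lt_div_iff₀ hng hkm, hWQ, hWQ]
      have := h2 n hn g hg hgn m hm k hk hmk
      have t : (n : ℚ) * ((p * g / q : ℕ) : ℚ) * ((k : ℚ) - m) + m * ((p * k / q : ℕ) : ℚ) * ((n : ℚ) - g) <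
          k * ((p * m / q : ℕ) : ℚ) * ((n : ℚ) - g) + g * ((p * n / q : ℕ) : ℚ) * ((k : ℚ) - m) := by
        have e1 : ((k : ℚ) - m) = ((k - m : ℕ) : ℚ) := by rw [Nat.cast_sub hmk.le]
        have e2 : ((n : ℚ) - g) = ((n - g : ℕ) : ℚ) := by rw [Nat.cast_sub hgn.le]
        rw [e1, e2]
        exact_mod_cast this
      nlinarith)
  have hδ0 : 0 < δ := hδ1 0 (by simp [hlo])
  -- the pairwise inequality
  have hpair : ∀ n ∈ l, ∀ g, G g → (g : ℚ) * R n - n * R g < δ * ((n : ℚ) - g) := by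
    intro n hn g hg
    rcases lt_trichotomy n g with hlt | heq | hgt
    · have := hδ2 (- W n g / ((g : ℚ) - n)) (by
        simp only [hhi, Finset.mem_image, Finset.mem_filter, Finset.mem_product, Prod.exists,
          hmemGS, hLS, List.mem_toFinset]
        exact ⟨n, g, ⟨⟨hn, hg⟩, hlt⟩, rfl⟩)
      have hkm : (0 : ℚ) < (g : ℚ) - n := by
        have : (n : ℚ) < g := by exact_mod_cast hlt
        linarith
      rw [lt_div_iff₀ hkm] at this
      simp only [hW] at this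
      linarith
    · exact absurd (heq ▸ hg) (hdis n hn)
    · have := hδ1 (W n g / ((n : ℚ) - g)) (by
        simp only [hlo, Finset.mem_insert, Finset.mem_image, Finset.mem_filter,
          Finset.mem_product, Prod.exists, hmemGS, hLS, List.mem_toFinset]
        exact Or.inr ⟨n, g, ⟨⟨hn, hg⟩, hgt⟩, rfl⟩)
      have hkm : (0 : ℚ) < (n : ℚ) - g := by
        have : (g : ℚ) < n := by exact_mod_cast hgt
        linarith
      rw [div_lt_iff₀ hkm] at this
      simp only [hW] at this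
      linarith
  -- gamma
  obtain ⟨γ, hγ1, hγ2⟩ := Order.exists_between_finsets
    (insert (0 : ℚ) (LS.image (fun n => (R n + δ) / n))) (GS.image (fun g => (R g + δ) / g)) (by
    intro x hx y hy
    simp only [Finset.mem_insert, Finset.mem_image, hmemGS, hLS, List.mem_toFinset] at hx hy
    obtain ⟨g, hg, rfl⟩ := hy
    have hg0 : (0 : ℚ) < g := by
      rcases Nat.eq_zero_or_pos g with h0 | h0
      · exact absurd (h0 ▸ hg) hG0
      · exact_mod_cast h0
    have hRg : 0 ≤ R g := by simp [hR]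
    rcases hx with rfl | ⟨n, hn, rfl⟩
    · exact div_pos (by linarith) hg0
    · have hn0 : (0 : ℚ) < n := by exact_mod_cast hl n hn
      rw [div_lt_div_iff₀ hn0 hg0]
      have := hpair n hn g hg
      linarith)
  have hγ0 : 0 < γ := hγ1 0 (by simp)
  -- integers
  set t : ℕ := γ.den * δ.den with ht
  have ht0 : 0 < t := Nat.mul_pos γ.den_pos δ.den_pos
  have htq : (0 : ℚ) < t := by exact_mod_cast ht0
  have hC : ∃ C : ℕ, (C : ℚ) = γ * t := by
    have hnum : 0 ≤ γ.num := Rat.num_nonneg.2 hγ0.le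
    obtain ⟨m, hm⟩ := Int.eq_ofNat_of_zero_le hnum
    refine ⟨m * δ.den, ?_⟩
    have h3 : γ * γ.den = (γ.num : ℚ) := Rat.mul_den_eq_num γ
    have h4 : (γ.num : ℚ) = m := by rw [hm]; simp
    rw [ht]; push_cast
    rw [← mul_assoc, h3, h4]
  have hD : ∃ D : ℕ, (D : ℚ) = δ * t := by
    have hnum : 0 ≤ δ.num := Rat.num_nonneg.2 hδ0.le
    obtain ⟨m, hm⟩ := Int.eq_ofNat_of_zero_le hnum
    refine ⟨m * γ.den, ?_⟩
    have h3 : δ * δ.den = (δ.num : ℚ) := Rat.mul_den_eq_num δ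
    have h4 : (δ.num : ℚ) = m := by rw [hm]; simp
    rw [ht]; push_cast
    rw [mul_comm (γ.den : ℚ), ← mul_assoc, h3, h4]
  obtain ⟨C, hC⟩ := hC
  obtain ⟨D, hD⟩ := hD
  have hmod : ∀ x : ℕ, (((p * t : ℕ) : ℤ) * (x : ℤ)) % ((q * t : ℕ) : ℤ) = (t : ℤ) * ((p * x % q : ℕ) : ℤ) := by
    intro x
    have : (p * t * x) % (q * t) = t * (p * x % q) := by
      rw [mul_right_comm, mul_comm (p * x) t, mul_comm q t, Nat.mul_mod_mul_left]
    exact_mod_cast this
  refine ⟨p * t, q * t, C, D, (Nat.mul_pos hq ht0).ne', ?_, ?_, ?_⟩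
  · intro h0
    rw [h0] at hC
    have : (0 : ℚ) < γ * t := mul_pos hγ0 htq
    simp at hC
    rcases hC with h5 | h5
    · linarith
    · omega
  · intro n hn
    simp only [P, Set.mem_ofPred_eq]
    rw [hmod n]
    have hn0 : (0 : ℚ) < n := by exact_mod_cast hl n hn
    have h5 := hγ1 ((R n + δ) / n) (by
      simp only [Finset.mem_insert, Finset.mem_image, hLS, List.mem_toFinset]
      exact Or.inr ⟨n, hn, rfl⟩)
    rw [div_lt_iff₀ hn0] at h5
    have h6 : (t : ℚ) * ((p * n % q : ℕ) : ℚ) ≤ C * n - D := by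
      rw [hC, hD]
      have : R n = ((p * n % q : ℕ) : ℚ) := rfl
      rw [← this]
      nlinarith
    have h7 : (((t : ℤ) * ((p * n % q : ℕ) : ℤ) : ℤ) : ℚ) ≤ (((C : ℤ) * (n : ℤ) - (D : ℤ) : ℤ) : ℚ) := by
      push_cast; push_cast at h6; exact h6
    exact Int.cast_le.1 h7
  · intro g hg
    simp only [P, Set.mem_ofPred_eq, not_le]
    rw [hmod g]
    have hg0 : (0 : ℚ) < g := by
      rcases Nat.eq_zero_or_pos g with h0 | h0
      · exact absurd (h0 ▸ hg) hG0
      · exact_mod_cast h0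
    have h5 := hγ2 ((R g + δ) / g) (by
      simp only [Finset.mem_image, hmemGS]
      exact ⟨g, hg, rfl⟩)
    rw [lt_div_iff₀ hg0] at h5
    have h6 : (C : ℚ) * g - D < (t : ℚ) * ((p * g % q : ℕ) : ℚ) := by
      rw [hC, hD]
      have : R g = ((p * g % q : ℕ) : ℚ) := rfl
      rw [← this]
      nlinarith
    have h7 : (((C : ℤ) * (g : ℤ) - (D : ℤ) : ℤ) : ℚ) < (((t : ℤ) * ((p * g % q : ℕ) : ℤ) : ℤ) : ℚ) := by
      push_cast; push_cast at h6; exact h6
    exact Int.cast_lt.1 h7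

/-- The criterion depends only on floors, so small denominators suffice. -/
theorem crit_small {l : List ℕ} {G : ℕ → Prop} {N : ℕ} (hN : 0 < N)
    (hlN : ∀ n ∈ l, n ≤ N) (hG : ∀ g, G g → g ≤ N) {a b : ℕ} (hb : 0 < b) (hab : a ≤ b)
    (h : Crit l G a b) : ∃ q p : ℕ, 0 < q ∧ q ≤ N ∧ p ≤ q ∧ Crit l G p q := by
  obtain ⟨q, hq, hmax⟩ := Finset.exists_max_image (Finset.Icc 1 N)
    (fun x => ((a * x / b : ℕ) : ℚ) / x) ⟨1, by simp; omega⟩
  rw [Finset.mem_Icc] at hq
  have hq0 : 0 < q := hq.1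
  refine ⟨q, a * q / b, hq0, hq.2, ?_, ?_⟩
  · apply Nat.div_le_of_le_mul
    exact Nat.mul_le_mul_right q hab
  have hfl : ∀ x, 0 < x → x ≤ N → (a * q / b) * x / q = a * x / b := by
    intro x hx hxN
    apply le_antisymm
    · rw [Nat.le_div_iff_mul_le hb]
      have i1 : (a * q / b) * x / q * q ≤ (a * q / b) * x := Nat.div_mul_le_self _ _
      have i2 : (a * q / b) * b ≤ a * q := Nat.div_mul_le_self _ _
      have : (a * q / b) * x / q * b * q ≤ a * x * q := by
        calc (a * q / b) * x / q * b * q = ((a * q / b) * x / q * q) * b := by ring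
          _ ≤ ((a * q / b) * x) * b := Nat.mul_le_mul_right _ i1
          _ = ((a * q / b) * b) * x := by ring
          _ ≤ (a * q) * x := Nat.mul_le_mul_right _ i2
          _ = a * x * q := by ring
      exact Nat.le_of_mul_le_mul_right this hq0
    · rw [Nat.le_div_iff_mul_le hq0]
      have i1 := hmax x (Finset.mem_Icc.2 ⟨hx, hxN⟩)
      rw [div_le_div_iff₀ (by exact_mod_cast hx) (by exact_mod_cast hq0)] at i1
      exact_mod_cast i1
  -- transfer
  have hfl' : ∀ x, x ≤ N → (a * q / b) * x / q = a * x / b := by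
    intro x hx
    rcases Nat.eq_zero_or_pos x with h0 | h0
    · subst h0; simp
    · exact hfl x h0 hx
  obtain ⟨h1, h2⟩ := h
  refine ⟨?_, ?_⟩
  · intro n hn g hg hng
    rw [hfl' g (hG g hg), hfl' n (hlN n hn)]
    exact h1 n hn g hg hng
  · intro n hn g hg hgn m hm k hk hmk
    rw [hfl' g (hG g hg), hfl' n (hlN n hn), hfl' k (hG k hk), hfl' m (hlN m hm)]
    exact h2 n hn g hg hgn m hm k hk hmk

end Q229.CPM
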