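import Pool.Agent.Q229.CPM.Bound

namespace Q229.CPM

open Primrec

attribute [fun_prop] Primrec

variable {α β γ δ : Type} [Primcodable α] [Primcodable β] [Primcodable γ] [Primcodable δ]

@[fun_prop] theorem pr_id : Primrec (fun a : α => a) := Primrec.id
@[fun_prop] theorem pr_const (b : β) : Primrec (fun _ : α => b) := Primrec.const b
@[fun_prop] theorem pr_comp {f : β → γ} {g : α → β} (hf : Primrec f) (hg : Primrec g) :
    Primrec (fun a => f (g a)) := Primrec.comp hf hg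
@[fun_prop] theorem pr_fst {f : α → β × γ} (hf : Primrec f) : Primrec (fun a => (f a).1) :=
  Primrec.fst.comp hf
@[fun_prop] theorem pr_snd {f : α → β × γ} (hf : Primrec f) : Primrec (fun a => (f a).2) :=
  Primrec.snd.comp hf
@[fun_prop] theorem pr_pair {f : α → β} {g : α → γ} (hf : Primrec f) (hg : Primrec g) :
    Primrec (fun a => (f a, g a)) := Primrec.pair hf hg
@[fun_prop] theorem pr_add {f g : α → ℕ} (hf : Primrec f) (hg : Primrec g) :
    Primrec (fun a => f a + g a) := Primrec.nat_add.comp hf hg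
@[fun_prop] theorem pr_sub {f g : α → ℕ} (hf : Primrec f) (hg : Primrec g) :
    Primrec (fun a => f a - g a) := Primrec.nat_sub.comp hf hg
@[fun_prop] theorem pr_mul {f g : α → ℕ} (hf : Primrec f) (hg : Primrec g) :
    Primrec (fun a => f a * g a) := Primrec.nat_mul.comp hf hg
@[fun_prop] theorem pr_div {f g : α → ℕ} (hf : Primrec f) (hg : Primrec g) :
    Primrec (fun a => f a / g a) := Primrec.nat_div.comp hf hg

theorem pp_lt {f g : α → ℕ} (hf : Primrec f) (hg : Primrec g) :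
    PrimrecPred (fun a => f a < g a) := Primrec.nat_lt.comp hf hg

theorem pp_imp {p q : α → Prop} (hp : PrimrecPred p) (hq : PrimrecPred q) :
    PrimrecPred (fun a => p a → q a) :=
  (hp.not.or hq).of_eq fun a => by tauto

theorem pp_all {R : β → α → Prop} (hR : PrimrecRel R) {l : α → List β} (hl : Primrec l) :
    PrimrecPred (fun a => ∀ x ∈ l a, R x a) :=
  hR.forall_mem_list.comp hl Primrec.id

theorem pp_all_lt {R : ℕ → α → Prop} (hR : PrimrecRel R) {f : α → ℕ} (hf : Primrec f) :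
    PrimrecPred (fun a => ∀ x < f a, R x a) :=
  (hR.forall_mem_list.comp (Primrec.list_range.comp hf) Primrec.id).of_eq fun a => by simp

theorem pp_ex_lt {R : ℕ → α → Prop} (hR : PrimrecRel R) {f : α → ℕ} (hf : Primrec f) :
    PrimrecPred (fun a => ∃ x < f a, R x a) :=
  (hR.exists_mem_list.comp (Primrec.list_range.comp hf) Primrec.id).of_eq fun a => by simp

theorem pr_step : Primrec₂ (fun (c : List ℕ × ℕ) (x : ℕ × List ℕ) =>
    x.2 ++ x.2.flatMap (fun y => c.1.map (fun n => y + n))) := by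
  have h1 : Primrec₂ (fun (c : (List ℕ × ℕ) × (ℕ × List ℕ)) (y : ℕ) =>
      c.1.1.map (fun n => y + n)) := by
    have h2 : Primrec₂ (fun (c : ((List ℕ × ℕ) × (ℕ × List ℕ)) × ℕ) (n : ℕ) => c.2 + n) := by
      show Primrec (fun d : (((List ℕ × ℕ) × (ℕ × List ℕ)) × ℕ) × ℕ => d.1.2 + d.2)
      fun_prop
    exact Primrec.list_map (f := fun (c : ((List ℕ × ℕ) × (ℕ × List ℕ)) × ℕ) => c.1.1.1)
      (by fun_prop) h2
  have h3 : Primrec (fun (c : (List ℕ × ℕ) × (ℕ × List ℕ)) =>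
      c.2.2.flatMap (fun y => c.1.1.map (fun n => y + n))) :=
    Primrec.list_flatMap (by fun_prop) h1
  exact Primrec.list_append.comp (by fun_prop : Primrec (fun (c : (List ℕ × ℕ) × (ℕ × List ℕ)) => c.2.2)) h3

theorem pr_sums : Primrec₂ sums := by
  have h : Primrec (fun c : List ℕ × ℕ => (Nat.rec [0] (fun k s =>
      (fun (c : List ℕ × ℕ) (x : ℕ × List ℕ) =>
        x.2 ++ x.2.flatMap (fun y => c.1.map (fun n => y + n))) c (k, s)) c.2 : List ℕ)) :=
    Primrec.nat_rec' (f := fun c : List ℕ × ℕ => c.2) (g := fun _ => [0]) (by fun_prop)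
      (Primrec.const _) pr_step
  refine Primrec.of_eq h ?_
  rintro ⟨l, k⟩
  simp only
  induction k with
  | zero => rfl
  | succ k ih => simp only [sums]; rw [← ih]

theorem pr_sum : Primrec (fun l : List ℕ => l.sum) := by
  have h : Primrec₂ (fun (_ : List ℕ) (x : ℕ × ℕ) => x.1 + x.2) := by
    show Primrec (fun d : List ℕ × (ℕ × ℕ) => d.2.1 + d.2.2)
    fun_prop
  have : Primrec (fun l : List ℕ => l.foldr (fun b s => b + s) 0) :=
    Primrec.list_foldr Primrec.id (Primrec.const 0) h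
  exact this.of_eq fun l => by rw [List.sum_eq_foldr]

@[fun_prop] theorem pr_sum' {f : α → List ℕ} (hf : Primrec f) : Primrec (fun a => (f a).sum) :=
  pr_sum.comp hf

theorem pp_gap {f : α → List ℕ} {g : α → ℕ} (hf : Primrec f) (hg : Primrec g) :
    PrimrecPred (fun a => g a ∉ sums (f a) (g a)) := by
  have h1 : PrimrecRel (fun (y : ℕ) (x : ℕ) => y = x) := Primrec.eq
  have h2 := (h1.exists_mem_list.comp (pr_sums.comp hf hg) hg)
  exact h2.not.of_eq fun a => by simp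

/-- the criterion as an explicit bounded statement -/
def Test (l : List ℕ) : Prop :=
  ∃ q < l.sum * l.sum + 1, 0 < q ∧ ∃ p < q + 1,
    (∀ n ∈ l, ∀ g < l.sum * l.sum, g ∉ sums l g → n < g → n * (p * g / q) < g * (p * n / q)) ∧
    (∀ n ∈ l, ∀ g < l.sum * l.sum, g ∉ sums l g → g < n →
      ∀ m ∈ l, ∀ k < l.sum * l.sum, k ∉ sums l k → m < k →
      n * (p * g / q) * (k - m) + m * (p * k / q) * (n - g) <
        k * (p * m / q) * (n - g) + g * (p * n / q) * (k - m))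

theorem test_iff (l : List ℕ) : Test l ↔ ∃ q < l.sum * l.sum + 1, 0 < q ∧ ∃ p < q + 1,
      Crit l (fun g => g < l.sum * l.sum ∧ g ∉ sums l g) p q := by
  unfold Test Crit
  constructor
  · rintro ⟨q, hq, hq0, p, hp, h1, h2⟩
    exact ⟨q, hq, hq0, p, hp, fun n hn g hg => h1 n hn g hg.1 hg.2,
      fun n hn g hg hgn m hm k hk => h2 n hn g hg.1 hg.2 hgn m hm k hk.1 hk.2⟩
  · rintro ⟨q, hq, hq0, p, hp, h1, h2⟩
    exact ⟨q, hq, hq0, p, hp, fun n hn g hg hg' => h1 n hn g ⟨hg, hg'⟩,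
      fun n hn g hg hg' hgn m hm k hk hk' => h2 n hn g ⟨hg, hg'⟩ hgn m hm k ⟨hk, hk'⟩⟩

theorem test_prim : PrimrecPred Test := by
  refine pp_ex_lt (R := fun q (l : List ℕ) => 0 < q ∧ ∃ p < q + 1,
    (∀ n ∈ l, ∀ g < l.sum * l.sum, g ∉ sums l g → n < g → n * (p * g / q) < g * (p * n / q)) ∧
    (∀ n ∈ l, ∀ g < l.sum * l.sum, g ∉ sums l g → g < n →
      ∀ m ∈ l, ∀ k < l.sum * l.sum, k ∉ sums l k → m < k →
      n * (p * g / q) * (k - m) + m * (p * k / q) * (n - g) <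
        k * (p * m / q) * (n - g) + g * (p * n / q) * (k - m))) ?_ (by fun_prop)
  refine (pp_lt (by fun_prop) (by fun_prop)).and ?_
  refine pp_ex_lt (R := fun p (c : ℕ × List ℕ) =>
    (∀ n ∈ c.2, ∀ g < c.2.sum * c.2.sum, g ∉ sums c.2 g → n < g →
      n * (p * g / c.1) < g * (p * n / c.1)) ∧
    (∀ n ∈ c.2, ∀ g < c.2.sum * c.2.sum, g ∉ sums c.2 g → g < n →
      ∀ m ∈ c.2, ∀ k < c.2.sum * c.2.sum, k ∉ sums c.2 k → m < k →
      n * (p * g / c.1) * (k - m) + m * (p * k / c.1) * (n - g) <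
        k * (p * m / c.1) * (n - g) + g * (p * n / c.1) * (k - m))) ?_ (by fun_prop)
  refine PrimrecPred.and ?_ ?_
  · refine pp_all (R := fun n (c : ℕ × ℕ × List ℕ) =>
      ∀ g < c.2.2.sum * c.2.2.sum, g ∉ sums c.2.2 g → n < g →
      n * (c.1 * g / c.2.1) < g * (c.1 * n / c.2.1)) ?_ (by fun_prop)
    refine pp_all_lt (R := fun g (c : ℕ × ℕ × ℕ × List ℕ) => g ∉ sums c.2.2.2 g → c.1 < g →
      c.1 * (c.2.1 * g / c.2.2.1) < g * (c.2.1 * c.1 / c.2.2.1)) ?_ (by fun_prop)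
    exact pp_imp (pp_gap (by fun_prop) (by fun_prop)) (pp_imp (pp_lt (by fun_prop) (by fun_prop))
      (pp_lt (by fun_prop) (by fun_prop)))
  · refine pp_all (R := fun n (c : ℕ × ℕ × List ℕ) =>
      ∀ g < c.2.2.sum * c.2.2.sum, g ∉ sums c.2.2 g → g < n →
      ∀ m ∈ c.2.2, ∀ k < c.2.2.sum * c.2.2.sum, k ∉ sums c.2.2 k → m < k →
      n * (c.1 * g / c.2.1) * (k - m) + m * (c.1 * k / c.2.1) * (n - g) <
        k * (c.1 * m / c.2.1) * (n - g) + g * (c.1 * n / c.2.1) * (k - m)) ?_ (by fun_prop)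
    refine pp_all_lt (R := fun g (c : ℕ × ℕ × ℕ × List ℕ) => g ∉ sums c.2.2.2 g → g < c.1 →
      ∀ m ∈ c.2.2.2, ∀ k < c.2.2.2.sum * c.2.2.2.sum, k ∉ sums c.2.2.2 k → m < k →
      c.1 * (c.2.1 * g / c.2.2.1) * (k - m) + m * (c.2.1 * k / c.2.2.1) * (c.1 - g) <
        k * (c.2.1 * m / c.2.2.1) * (c.1 - g) + g * (c.2.1 * c.1 / c.2.2.1) * (k - m))
      ?_ (by fun_prop)
    refine pp_imp (pp_gap (by fun_prop) (by fun_prop)) (pp_imp (pp_lt (by fun_prop) (by fun_prop)) ?_)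
    refine pp_all (R := fun m (c : ℕ × ℕ × ℕ × ℕ × List ℕ) =>
      ∀ k < c.2.2.2.2.sum * c.2.2.2.2.sum, k ∉ sums c.2.2.2.2 k → m < k →
      c.2.1 * (c.2.2.1 * c.1 / c.2.2.2.1) * (k - m) + m * (c.2.2.1 * k / c.2.2.2.1) * (c.2.1 - c.1) <
        k * (c.2.2.1 * m / c.2.2.2.1) * (c.2.1 - c.1) +
        c.1 * (c.2.2.1 * c.2.1 / c.2.2.2.1) * (k - m)) ?_ (by fun_prop)
    refine pp_all_lt (R := fun k (c : ℕ × ℕ × ℕ × ℕ × ℕ × List ℕ) =>
      k ∉ sums c.2.2.2.2.2 k → c.1 < k →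
      c.2.2.1 * (c.2.2.2.1 * c.2.1 / c.2.2.2.2.1) * (k - c.1) +
        c.1 * (c.2.2.2.1 * k / c.2.2.2.2.1) * (c.2.2.1 - c.2.1) <
        k * (c.2.2.2.1 * c.1 / c.2.2.2.2.1) * (c.2.2.1 - c.2.1) +
        c.2.1 * (c.2.2.2.1 * c.2.2.1 / c.2.2.2.2.1) * (k - c.1)) ?_ (by fun_prop)
    exact pp_imp (pp_gap (by fun_prop) (by fun_prop)) (pp_imp (pp_lt (by fun_prop) (by fun_prop))
      (pp_lt (by fun_prop) (by fun_prop)))

theorem final : ∃ f : List ℕ → Bool, Primrec f ∧ ∀ l : List ℕ, (∀ n ∈ l, 0 < n) →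
    l.foldr Nat.gcd 0 = 1 → (f l = true ↔ IsCPM (Gen l)) := by
  obtain ⟨inst, h⟩ := test_prim
  refine ⟨fun l => decide (Test l), h, ?_⟩
  intro l hl hg
  rw [decide_eq_true_iff, test_iff, main hl hg]

end Q229.CPM
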